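import Pool.Agent.Helper93.KP.St

/-!
# Project KP (MP_77e955_nt): module EXC, the exceptional set for one weight
-/

set_option autoImplicit false

noncomputable section

namespace Pool.Agent.Helper90.KP

open Finset Filter Topology Pool.Agent.Helper93.KP
open Pool.Agent.Helper15.AB (ee Kl StDB StMT)
open Pool.Agent.Helper9.TW (iv bx Rg cc Dec WF bm ms ind UpP LoP gm Ax GUp GLo Qs fm ej
  StFOU StMER StMSB StINQ StWFJ StPOS StC5 StC6 StC9 StAX StD1 StD2 StD3 StD4)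

private theorem evX (κ : ℝ) (hκ : 0 < κ) (X : ℝ) :
    ∃ a₀ : ℕ, ∀ a : ℕ, a₀ ≤ a → X ≤ (a : ℝ) ^ κ := by
  have htend : Tendsto (fun a : ℕ => (a : ℝ) ^ κ) atTop atTop :=
    (tendsto_rpow_atTop hκ).comp tendsto_natCast_atTop_atTop
  obtain ⟨a5, ha5⟩ := Filter.eventually_atTop.1 (htend.eventually_ge_atTop X)
  exact ⟨a5, ha5⟩

private theorem chb (s : Finset ℕ) (f : ℕ → ℝ) (w R : ℝ) (hw : 0 ≤ w)
    (h : ∑ n ∈ s, f n ^ 2 ≤ R) :
    (((s.filter (fun n => w < |f n|)).card : ℕ) : ℝ) * w ^ 2 ≤ R := by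
  refine le_trans ?_ h
  refine le_trans ?_ (Finset.sum_le_sum_of_subset_of_nonneg
    (Finset.filter_subset (fun n => w < |f n|) s) fun n _ _ => sq_nonneg _)
  rw [← nsmul_eq_mul]
  refine Finset.card_nsmul_le_sum _ _ _ fun n hn => ?_
  rw [mem_filter] at hn
  rw [← sq_abs (f n)]
  exact pow_le_pow_left₀ hw hn.2.le 2

private theorem lg (a : ℝ) (ha : 1 ≤ a) (μ : ℝ) (hμ : 0 < μ) :
    (1 + 2 * Real.log a) ^ 2 ≤ (1 + 32 / μ) ^ 2 * a ^ (μ / 8) := by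
  have ha0 : 0 < a := by linarith
  have h2 := Real.log_le_rpow_div ha0.le (show 0 < μ / 16 by positivity)
  have h3 : 1 ≤ a ^ (μ / 16) := Real.one_le_rpow ha (by positivity)
  have h4 : (1 + 32 / μ) * a ^ (μ / 16) = a ^ (μ / 16) + 2 * (a ^ (μ / 16) / (μ / 16)) := by
    field_simp
    ring
  have h5 : 1 + 2 * Real.log a ≤ (1 + 32 / μ) * a ^ (μ / 16) := by
    rw [h4]
    linarith
  have h6 : a ^ (μ / 8) = (a ^ (μ / 16)) ^ 2 := by
    rw [← Real.rpow_natCast, ← Real.rpow_mul ha0.le]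
    congr 1
    push_cast
    ring
  have h7 : 0 ≤ Real.log a := Real.log_nonneg ha
  rw [h6, ← mul_pow]
  exact pow_le_pow_left₀ (by linarith) h5 2

theorem hEXC (hV : StVAR) (hQ : StSQX) (hP : StPTB) (h5 : StC5) (h6 : StC6) : StEXC := by
  classical
  intro δ u hδ hδ1
  obtain ⟨θ₁, hθ₁, hθ₁', H1⟩ := hV δ u hδ hδ1
  refine ⟨θ₁, hθ₁, hθ₁', fun θ hθ hθle κ₀ hκ₀ hκ₀' => ?_⟩
  obtain ⟨κV, hκV, H2⟩ := H1 θ hθ hθle
  obtain ⟨κQ, hκQ, aQ, H3⟩ := hQ θ hθ (hθle.trans hθ₁')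
  obtain ⟨μ, hμ⟩ : ∃ μ : ℝ, μ = min (min κV κQ) (min κ₀ θ) := ⟨_, rfl⟩
  have hμ0 : 0 < μ := by rw [hμ]; exact lt_min (lt_min hκV hκQ) (lt_min hκ₀ hθ)
  have hμV : μ ≤ κV := by rw [hμ]; exact (min_le_left _ _).trans (min_le_left _ _)
  have hμQ : μ ≤ κQ := by rw [hμ]; exact (min_le_left _ _).trans (min_le_right _ _)
  have hμκ : μ ≤ κ₀ := by rw [hμ]; exact (min_le_right _ _).trans (min_le_left _ _)
  have hμθ : μ ≤ θ := by rw [hμ]; exact (min_le_right _ _).trans (min_le_right _ _)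
  obtain ⟨C, hC, HP⟩ := hP (μ / 8) (by positivity)
  refine ⟨μ / 8, by positivity, fun T B => ?_⟩
  obtain ⟨aV, haV, H4⟩ := H2 T B (μ / 8) (by positivity)
  obtain ⟨X, hX⟩ : ∃ X : ℝ, X = 3 * (T * B ^ 2 * C ^ 2) +
    6 * (T * B ^ 2 * C * (1 + 32 / μ) ^ 2) + 36 := ⟨_, rfl⟩
  obtain ⟨a5, ha5⟩ := evX (μ / 2) (by positivity) X
  obtain ⟨a6, ha6⟩ := evX (δ / 200) (by positivity) 31
  refine ⟨max (max aV aQ) (max (max a5 a6) 3), fun i a l ha hDec => ?_⟩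
  have haV' : aV ≤ a := le_trans (le_trans (le_max_left _ _) (le_max_left _ _)) ha
  have haQ' : aQ ≤ a := le_trans (le_trans (le_max_right _ _) (le_max_left _ _)) ha
  have ha5' : a5 ≤ a :=
    le_trans (le_trans (le_trans (le_max_left _ _) (le_max_left _ _)) (le_max_right _ _)) ha
  have ha6' : a6 ≤ a :=
    le_trans (le_trans (le_trans (le_max_right _ _) (le_max_left _ _)) (le_max_right _ _)) ha
  have ha3 : 3 ≤ a := le_trans (le_trans (le_max_right _ _) (le_max_right _ _)) ha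
  have haR : (3 : ℝ) ≤ a := by exact_mod_cast ha3
  have ha0 : (0 : ℝ) < a := by linarith
  have ha1 : (1 : ℝ) ≤ a := by linarith
  have hXa : X ≤ (a : ℝ) ^ (μ / 2) := ha5 a ha5'
  have h31 : 31 ≤ (a : ℝ) ^ (δ / 200) := ha6 a ha6'
  obtain ⟨al, be, hB, hal, hbe, hl⟩ := hDec
  have hB0 : 0 ≤ B := le_trans (abs_nonneg _) (hB 0 0).1
  have h36 : 36 ≤ (a : ℝ) ^ (μ / 2) := by
    refine le_trans ?_ hXa
    rw [hX]
    have : 0 ≤ 3 * (T * B ^ 2 * C ^ 2) + 6 * (T * B ^ 2 * C * (1 + 32 / μ) ^ 2) := by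
      have hC0 : 0 ≤ C := by linarith
      positivity
    linarith
  obtain ⟨K, hK⟩ : ∃ K : ℕ, K = ⌊(a : ℝ) ^ κ₀⌋₊ := ⟨_, rfl⟩
  rw [← hK]
  have hK1 : 1 ≤ K := by
    rw [hK]
    refine Nat.le_floor ?_
    rw [Nat.cast_one]
    exact Real.one_le_rpow ha1 hκ₀.le
  have hK2 : (K : ℝ) ≤ (a : ℝ) ^ κ₀ := by
    rw [hK]
    exact Nat.floor_le (by positivity)
  have hκ1 : 1 ≤ (a : ℝ) ^ κ₀ := Real.one_le_rpow ha1 hκ₀.le
  have hδκ : (a : ℝ) ^ κ₀ ≤ (a : ℝ) ^ (δ / 200) := Real.rpow_le_rpow_of_exponent_le ha1 hκ₀'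
  have hδδ : (a : ℝ) ^ (δ / 200) * (a : ℝ) ^ (δ / 200) = (a : ℝ) ^ (δ / 100) := by
    rw [← Real.rpow_add ha0]
    congr 1
    ring
  have h31K : 30 * (K : ℝ) + 1 ≤ (a : ℝ) ^ (δ / 100) := by
    rw [← hδδ]
    have : (31 : ℝ) * (a : ℝ) ^ (δ / 200) ≤ (a : ℝ) ^ (δ / 200) * (a : ℝ) ^ (δ / 200) :=
      mul_le_mul_of_nonneg_right h31 (by positivity)
    linarith
  have h31Q : 30 * (K : ℝ) + 1 ≤ (a : ℝ) ^ (1 / 10 : ℝ) :=
    h31K.trans (Real.rpow_le_rpow_of_exponent_le ha1 (by linarith))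
  have h30a : 30 * K ≤ a := by
    have h1 : (a : ℝ) ^ (δ / 100) ≤ (a : ℝ) ^ (1 : ℝ) :=
      Real.rpow_le_rpow_of_exponent_le ha1 (by linarith)
    rw [Real.rpow_one] at h1
    have h2 : ((30 * K : ℕ) : ℝ) ≤ a := by
      push_cast
      linarith
    exact_mod_cast h2
  obtain ⟨M, hM⟩ : ∃ M : ℝ, M = (a : ℝ) ^ (1 - δ) := ⟨_, rfl⟩
  obtain ⟨N, hN⟩ : ∃ N : ℝ, N = (a : ℝ) ^ (1 / 10 - δ) := ⟨_, rfl⟩
  have hV1 := H4 i a K al be haV' hK1 (by linarith)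
    ⟨hB, fun t m h => (hal t m h).1, fun t m h => (hbe t m h).1⟩
  rw [← hM, ← hN] at hV1
  rw [← hM] at hal
  rw [← hN] at hbe
  obtain ⟨S, hS⟩ : ∃ S : ℕ → ℝ, ∀ n, S n = ∑ j ∈ Icc 1 K, tk i a θ u n (30 * j) *
      (PP T M N al be (vk n (30 * j)) - MU T M N al be) := ⟨_, fun _ => rfl⟩
  simp only [← hS] at hV1
  obtain ⟨E2, hE2c, hE2⟩ := H3 a K haQ' hK1 h31Q
  obtain ⟨w, hw⟩ : ∃ w : ℝ, w = (a : ℝ) ^ (κ₀ - μ / 8) / 3 := ⟨_, rfl⟩
  have hw0 : 0 < w := by rw [hw]; positivity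
  refine ⟨(NN a).filter (fun n => w < |S n|) ∪ E2, ?_, ?_⟩
  · -- the size of the exceptional set
    have c1 := chb (NN a) S w _ hw0.le hV1
    have c2 : (K : ℝ) * (a : ℝ) ^ (2 + μ / 8) ≤ (a : ℝ) ^ (2 * κ₀ + 2 - 7 * μ / 8) := by
      refine le_trans (mul_le_mul_of_nonneg_right hK2 (by positivity)) ?_
      rw [← Real.rpow_add ha0]
      exact Real.rpow_le_rpow_of_exponent_le ha1 (by linarith)
    have c3 : (K : ℝ) ^ 2 * (a : ℝ) ^ (2 - κV) ≤ (a : ℝ) ^ (2 * κ₀ + 2 - 7 * μ / 8) := by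
      have h1 : (K : ℝ) ^ 2 ≤ (a : ℝ) ^ (2 * κ₀) := by
        have h2 : (a : ℝ) ^ (2 * κ₀) = ((a : ℝ) ^ κ₀) ^ 2 := by
          rw [sq, ← Real.rpow_add ha0]
          congr 1
          ring
        rw [h2]
        exact pow_le_pow_left₀ (by positivity) hK2 2
      refine le_trans (mul_le_mul_of_nonneg_right h1 (by positivity)) ?_
      rw [← Real.rpow_add ha0]
      exact Real.rpow_le_rpow_of_exponent_le ha1 (by linarith)
    have c4 : 36 * (a : ℝ) ^ (2 * κ₀ + 2 - 7 * μ / 8) ≤ (a : ℝ) ^ (2 * κ₀ + 2 - 3 * μ / 8) := by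
      have h1 : (a : ℝ) ^ (2 * κ₀ + 2 - 3 * μ / 8) =
          (a : ℝ) ^ (μ / 2) * (a : ℝ) ^ (2 * κ₀ + 2 - 7 * μ / 8) := by
        rw [← Real.rpow_add ha0]
        congr 1
        ring
      rw [h1]
      exact mul_le_mul_of_nonneg_right h36 (by positivity)
    have c5 : w ^ 2 * (a : ℝ) ^ (2 - μ / 8) = (a : ℝ) ^ (2 * κ₀ + 2 - 3 * μ / 8) / 9 := by
      have h1 : (a : ℝ) ^ (2 * κ₀ + 2 - 3 * μ / 8) =
          (a : ℝ) ^ (κ₀ - μ / 8) * (a : ℝ) ^ (κ₀ - μ / 8) * (a : ℝ) ^ (2 - μ / 8) := by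
        rw [← Real.rpow_add ha0, ← Real.rpow_add ha0]
        congr 1
        ring
      rw [h1, hw]
      ring
    have c6 : ((((NN a).filter (fun n => w < |S n|)).card : ℕ) : ℝ) ≤ (a : ℝ) ^ (2 - μ / 8) / 2 := by
      have h1 : ((((NN a).filter (fun n => w < |S n|)).card : ℕ) : ℝ) * w ^ 2 ≤
          (a : ℝ) ^ (2 - μ / 8) / 2 * w ^ 2 := by
        have h2 : (a : ℝ) ^ (2 - μ / 8) / 2 * w ^ 2 =
            (a : ℝ) ^ (2 * κ₀ + 2 - 3 * μ / 8) / 18 := by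
          rw [show (a : ℝ) ^ (2 - μ / 8) / 2 * w ^ 2 = w ^ 2 * (a : ℝ) ^ (2 - μ / 8) / 2 by ring, c5]
          ring
        rw [h2]
        linarith
      exact le_of_mul_le_mul_right h1 (by positivity)
    have c7 : (E2.card : ℝ) ≤ (a : ℝ) ^ (2 - μ / 8) / 2 := by
      have h1 : (a : ℝ) ^ (2 - μ / 8) =
          (a : ℝ) ^ (μ / 2) * (a : ℝ) ^ (2 - 5 * μ / 8) := by
        rw [← Real.rpow_add ha0]
        congr 1
        ring
      have h2 : (a : ℝ) ^ (2 - κQ) ≤ (a : ℝ) ^ (2 - 5 * μ / 8) :=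
        Real.rpow_le_rpow_of_exponent_le ha1 (by linarith)
      have h3 : 36 * (a : ℝ) ^ (2 - 5 * μ / 8) ≤ (a : ℝ) ^ (μ / 2) * (a : ℝ) ^ (2 - 5 * μ / 8) :=
        mul_le_mul_of_nonneg_right h36 (by positivity)
      have h4 : 0 ≤ (a : ℝ) ^ (2 - 5 * μ / 8) := by positivity
      rw [h1]
      linarith
    have c8 : ((((NN a).filter (fun n => w < |S n|) ∪ E2).card : ℕ) : ℝ) ≤
        ((((NN a).filter (fun n => w < |S n|)).card : ℕ) : ℝ) + (E2.card : ℝ) := by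
      exact_mod_cast Finset.card_union_le _ _
    linarith
  · intro n hn hnE
    rw [Finset.mem_union, not_or] at hnE
    obtain ⟨hn1, hn2⟩ := hnE
    have hS1 : |S n| ≤ w := by
      by_contra h
      exact hn1 (mem_filter.2 ⟨hn, not_le.1 h⟩)
    have hbad := hE2 n hn hn2
    have hPj : ∀ j ∈ Icc 1 K, 1 ≤ vk n (30 * j) ∧
        |tk i a θ u n (30 * j)| ≤ C * (a : ℝ) ^ (μ / 8) ∧
        |PP T M N al be (vk n (30 * j))| ≤ T * B ^ 2 * (C * (a : ℝ) ^ (μ / 8)) := by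
      intro j hj
      rw [mem_Icc] at hj
      obtain ⟨_, g1, _, g2, g3⟩ := HP a (30 * j) n (by omega) (by omega) (by omega) hn
      exact ⟨g1, g2 i u θ, (g3 T M N B al be hB).1⟩
    have hJsub : Jn ((a : ℝ) ^ θ) K n ⊆ Icc 1 K := by
      unfold Jn
      exact Finset.filter_subset _ _
    have hs1 : ∑ j ∈ Jn ((a : ℝ) ^ θ) K n, tk i a θ u n (30 * j) *
          ∑ q ∈ (vk n (30 * j)).divisors, l q =
        ∑ j ∈ Jn ((a : ℝ) ^ θ) K n, tk i a θ u n (30 * j) * PP T M N al be (vk n (30 * j)) := by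
      refine Finset.sum_congr rfl fun j hj => ?_
      have hj' := hPj j (hJsub hj)
      have hj2 : ∀ p : ℕ, p.Prime → (a : ℝ) ^ θ ≤ (p : ℝ) → ¬ p ^ 2 ∣ vk n (30 * j) := by
        unfold Jn at hj
        exact (mem_filter.1 hj).2
      rw [h5 a (vk n (30 * j)) T ((a : ℝ) ^ θ) M N l al be hj'.1 hj2 hal hbe hl]
      rfl
    have hs2 : ∑ j ∈ Jn ((a : ℝ) ^ θ) K n, tk i a θ u n (30 * j) *
          ∑ q ∈ (vk n (30 * j)).divisors, l q -
        (∑ j ∈ Icc 1 K, tk i a θ u n (30 * j)) * ms a l =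
        S n - ∑ j ∈ Icc 1 K \ Jn ((a : ℝ) ^ θ) K n, tk i a θ u n (30 * j) *
            PP T M N al be (vk n (30 * j)) -
          (∑ j ∈ Icc 1 K, tk i a θ u n (30 * j)) * (ms a l - MU T M N al be) := by
      have h1 : S n = ∑ j ∈ Icc 1 K, tk i a θ u n (30 * j) * PP T M N al be (vk n (30 * j)) -
          (∑ j ∈ Icc 1 K, tk i a θ u n (30 * j)) * MU T M N al be := by
        rw [hS n, Finset.sum_mul, ← Finset.sum_sub_distrib]
        exact Finset.sum_congr rfl fun j _ => by ring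
      have h0 : ∑ j ∈ Icc 1 K, tk i a θ u n (30 * j) * PP T M N al be (vk n (30 * j)) =
          ∑ j ∈ Icc 1 K \ Jn ((a : ℝ) ^ θ) K n, tk i a θ u n (30 * j) *
            PP T M N al be (vk n (30 * j)) +
          ∑ j ∈ Jn ((a : ℝ) ^ θ) K n, tk i a θ u n (30 * j) * PP T M N al be (vk n (30 * j)) :=
        (Finset.sum_sdiff hJsub).symm
      rw [hs1, h1, h0]
      ring
    have hC0 : 0 ≤ C := by linarith
    have he2 : |∑ j ∈ Icc 1 K \ Jn ((a : ℝ) ^ θ) K n, tk i a θ u n (30 * j) *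
            PP T M N al be (vk n (30 * j))| ≤ T * B ^ 2 * C ^ 2 * (a : ℝ) ^ (κ₀ - 3 * μ / 4) := by
      refine le_trans (Finset.abs_sum_le_sum_abs _ _) ?_
      refine le_trans (Finset.sum_le_card_nsmul _ _
        (C * (a : ℝ) ^ (μ / 8) * (T * B ^ 2 * (C * (a : ℝ) ^ (μ / 8)))) fun j hj => ?_) ?_
      · have hj' := hPj j (mem_sdiff.1 hj).1
        rw [abs_mul]
        exact mul_le_mul hj'.2.1 hj'.2.2 (abs_nonneg _) (by positivity)
      · rw [nsmul_eq_mul]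
        have h1 : (((Icc 1 K \ Jn ((a : ℝ) ^ θ) K n).card : ℕ) : ℝ) ≤
            (a : ℝ) ^ κ₀ * (a : ℝ) ^ (-μ) := by
          refine le_trans hbad (mul_le_mul hK2 ?_ (by positivity) (by positivity))
          exact Real.rpow_le_rpow_of_exponent_le ha1 (by linarith)
        refine le_trans (mul_le_mul_of_nonneg_right h1 (by positivity)) (le_of_eq ?_)
        have h2 : (a : ℝ) ^ (κ₀ - 3 * μ / 4) = (a : ℝ) ^ κ₀ * (a : ℝ) ^ (-μ) *
            ((a : ℝ) ^ (μ / 8) * (a : ℝ) ^ (μ / 8)) := by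
          rw [← Real.rpow_add ha0, ← Real.rpow_add ha0, ← Real.rpow_add ha0]
          congr 1
          ring
        rw [h2]
        ring
    have he3 : |(∑ j ∈ Icc 1 K, tk i a θ u n (30 * j)) * (ms a l - MU T M N al be)| ≤
        2 * (T * B ^ 2 * C * (1 + 32 / μ) ^ 2) * (a : ℝ) ^ (κ₀ - 3 * μ / 4) := by
      rw [abs_mul]
      have k1 : |∑ j ∈ Icc 1 K, tk i a θ u n (30 * j)| ≤
          (a : ℝ) ^ κ₀ * (C * (a : ℝ) ^ (μ / 8)) := by
        refine le_trans (Finset.abs_sum_le_sum_abs _ _) ?_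
        refine le_trans (Finset.sum_le_card_nsmul _ _ (C * (a : ℝ) ^ (μ / 8)) fun j hj =>
          (hPj j hj).2.1) ?_
        rw [nsmul_eq_mul, Nat.card_Icc, Nat.add_sub_cancel]
        exact mul_le_mul_of_nonneg_right hK2 (by positivity)
      have hz1 : 1 ≤ (a : ℝ) ^ θ := Real.one_le_rpow ha1 hθ.le
      have k2 : |ms a l - MU T M N al be| ≤
          T * B ^ 2 * (2 / (a : ℝ) ^ θ) * (1 + 2 * Real.log a) ^ 2 := by
        refine h6 a T ((a : ℝ) ^ θ) M N B l al be (by omega) hz1 ?_ ?_ ?_ hB hal hbe hl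
        · rw [hM]
          exact Real.one_le_rpow ha1 (by linarith)
        · rw [hN]
          exact Real.one_le_rpow ha1 (by linarith)
        · rw [hM, hN, ← Real.rpow_add ha0, ← Real.rpow_natCast]
          exact Real.rpow_le_rpow_of_exponent_le ha1 (by push_cast; linarith)
      have k3 := lg a ha1 μ hμ0
      have k4 : 2 / (a : ℝ) ^ θ ≤ 2 * (a : ℝ) ^ (-μ) := by
        rw [div_eq_mul_inv, ← Real.rpow_neg ha0.le]
        refine mul_le_mul_of_nonneg_left ?_ (by norm_num)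
        exact Real.rpow_le_rpow_of_exponent_le ha1 (by linarith)
      have k5 : T * B ^ 2 * (2 / (a : ℝ) ^ θ) * (1 + 2 * Real.log a) ^ 2 ≤
          T * B ^ 2 * (2 * (a : ℝ) ^ (-μ)) * ((1 + 32 / μ) ^ 2 * (a : ℝ) ^ (μ / 8)) :=
        mul_le_mul (mul_le_mul_of_nonneg_left k4 (by positivity)) k3 (by positivity) (by positivity)
      refine le_trans (mul_le_mul k1 (k2.trans k5) (abs_nonneg _) (by positivity)) (le_of_eq ?_)
      have h2 : (a : ℝ) ^ (κ₀ - 3 * μ / 4) = (a : ℝ) ^ κ₀ * (a : ℝ) ^ (-μ) *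
          ((a : ℝ) ^ (μ / 8) * (a : ℝ) ^ (μ / 8)) := by
        rw [← Real.rpow_add ha0, ← Real.rpow_add ha0, ← Real.rpow_add ha0]
        congr 1
        ring
      rw [h2]
      ring
    have hfin : X * (a : ℝ) ^ (κ₀ - 3 * μ / 4) ≤ (a : ℝ) ^ (κ₀ - μ / 8) := by
      have h1 : (a : ℝ) ^ (κ₀ - μ / 4) = (a : ℝ) ^ (μ / 2) * (a : ℝ) ^ (κ₀ - 3 * μ / 4) := by
        rw [← Real.rpow_add ha0]
        congr 1
        ring
      refine le_trans (mul_le_mul_of_nonneg_right hXa (by positivity)) ?_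
      rw [← h1]
      exact Real.rpow_le_rpow_of_exponent_le ha1 (by linarith)
    have hpos : 0 ≤ (a : ℝ) ^ (κ₀ - 3 * μ / 4) := by positivity
    have hsum : T * B ^ 2 * C ^ 2 * (a : ℝ) ^ (κ₀ - 3 * μ / 4) +
        2 * (T * B ^ 2 * C * (1 + 32 / μ) ^ 2) * (a : ℝ) ^ (κ₀ - 3 * μ / 4) ≤
        (a : ℝ) ^ (κ₀ - μ / 8) / 3 := by
      have h1 : X * (a : ℝ) ^ (κ₀ - 3 * μ / 4) = 3 * (T * B ^ 2 * C ^ 2 * (a : ℝ) ^ (κ₀ - 3 * μ / 4) +
        2 * (T * B ^ 2 * C * (1 + 32 / μ) ^ 2) * (a : ℝ) ^ (κ₀ - 3 * μ / 4)) +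
          36 * (a : ℝ) ^ (κ₀ - 3 * μ / 4) := by
        rw [hX]
        ring
      rw [h1] at hfin
      linarith
    rw [hs2]
    rw [hw] at hS1
    have hpos2 : 0 ≤ (a : ℝ) ^ (κ₀ - μ / 8) := by positivity
    rw [abs_le] at hS1 he2 he3 ⊢
    constructor <;> linarith [hS1.1, hS1.2, he2.1, he2.2, he3.1, he3.2]

end Pool.Agent.Helper90.KP
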